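import Pool.Agent.Q332.TM.Cut

/-!
# Theta graphs do not control the moments of the numbers of paths

`Pool/Agent/Q332/TM/Defs.lean` contains the definitions: `emb`, `sp`, `paths`, `theta`, the
conditions `CondA` (trees), `CondB` (second moment of the number of paths of length `ℓ - 1`),
`CutLimit` (convergence in cut distance to a kernel), `CondH` (theta graphs) and `CondD` (moments of
the number of paths of length `ℓ`).

The sequence of the proof has `ℓ = 3`, `p = t ^ (-3)` with `t` about `n ^ (1/4)`; the graph `G_n` has
two vertices with `t` common neighbours of degree two, one pendant vertex at one of the two, and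
isolated vertices.
-/

set_option autoImplicit false

namespace Pool.Agent.Results.MP_cf0832_co.ThetaMoments

open Pool.Agent.Q332.TM

/-- For every `C > 0` there are `p`, a sequence of graphs and a kernel with values in `[0, C]` which
satisfy (A), (B), (C) and the bounds for theta graphs, with `ℓ = 3`, but not (D). -/
theorem result : ∀ C : ℝ, 0 < C →
    ∃ (G : (n : ℕ) → SimpleGraph (Fin n)) (p : ℕ → ℝ) (κ : ℝ × ℝ → ℝ),
      (∀ n, 0 < p n ∧ p n ≤ 1) ∧ IsKernel C κ ∧
      CondA G p ∧ CondB G p 3 ∧ CutLimit G p κ ∧ CondH G p 3 ∧ ¬ CondD G p 3 := by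
  intro C hC
  refine ⟨gad, pp, fun _ => 0, fun n => ⟨pp_pos n, pp_le n⟩, ⟨measurable_const, fun x y =>
    ⟨rfl, le_refl _, hC.le⟩⟩, condA_gad, condB_gad, cut_gad, condH_gad, not_condD_gad⟩

end Pool.Agent.Results.MP_cf0832_co.ThetaMoments
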